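import Mathlib.Analysis.SpecialFunctions.Pow.Deriv
import Mathlib.Analysis.SpecialFunctions.Trigonometric.Bounds
import Mathlib.Analysis.Complex.Trigonometric
import Mathlib.Tactic

/-!
# `Re P_{α,β} ≥ 0` on the unit disk whenever `β ≤ α / (2 (1 - α))`

Put `w = (1 + z) / (1 - z) = ρ e^{iφ}` with `|φ| < π / 2`, `t = |φ|`. Up to the positive factor
`ρ ^ β / |w + 1| ^ 2`, the number `Re P_{α,β}(z)` is
`cos(βt) [α |w-1|² + 4 (1-α) ρ cos t + 2 β (1-α) cos² t (ρ²-1)] - 2 β (1-α) cos t sin t sin(βt) (ρ²+1)`.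
As `α ≥ 2 β (1 - α)`, this is at least `2 (1 - α)` times
`β ρ² [cos(βt) (1 + cos² t) - cos t sin t sin(βt)] + 2 (1-β) ρ cos t cos(βt) + β sin t sin((1-β)t)`,
and each of the three terms is nonnegative, because `0 < β < 1`.
-/

set_option autoImplicit false

open Complex

namespace Pool.Agent.Results.MP_54ed65_an.NonnegativeRealPart

/-- `p_β(z) = ((1 + z) / (1 - z)) ^ β`, principal power. -/
noncomputable def pfun (β : ℝ) (z : ℂ) : ℂ := ((1 + z) / (1 - z)) ^ (β : ℂ)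

/-- `P_{α,β}(z) = {α r² + (1-α)(1-r²)} p_β(z) + (1-α)(1-r²) z p_β'(z)`, with `r = |z|`. -/
noncomputable def Pfun (α β : ℝ) (z : ℂ) : ℂ :=
  ((α * ‖z‖ ^ 2 + (1 - α) * (1 - ‖z‖ ^ 2) : ℝ) : ℂ) * pfun β z +
    (((1 - α) * (1 - ‖z‖ ^ 2) : ℝ) : ℂ) * (z * deriv (pfun β) z)

/-- The elementary inequality. -/
theorem elem {β t ρ : ℝ} (hβ0 : 0 < β) (hβ1 : β < 1) (ht0 : 0 ≤ t) (ht1 : t < Real.pi / 2)
    (hρ : 0 < ρ) :
    0 ≤ Real.cos (β * t) * (β * (ρ ^ 2 + 1) - 2 * β * ρ * Real.cos t + 2 * ρ * Real.cos t +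
      β * Real.cos t ^ 2 * (ρ ^ 2 - 1)) -
      β * Real.cos t * (Real.sin t * Real.sin (β * t)) * (ρ ^ 2 + 1) := by
  have hpi := Real.pi_pos
  have hc0 : 0 < Real.cos t := Real.cos_pos_of_mem_Ioo ⟨by linarith, ht1⟩
  have hs0 : 0 ≤ Real.sin t := Real.sin_nonneg_of_nonneg_of_le_pi ht0 (by linarith)
  have hβt : β * t ≤ t := by nlinarith
  have hβt0 : 0 ≤ β * t := by positivity
  have hC : Real.cos t ≤ Real.cos (β * t) :=
    Real.cos_le_cos_of_nonneg_of_le_pi hβt0 (by linarith) hβt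
  have hS0 : 0 ≤ Real.sin (β * t) := Real.sin_nonneg_of_nonneg_of_le_pi hβt0 (by linarith)
  have hS : Real.sin (β * t) ≤ Real.sin t :=
    Real.sin_le_sin_of_le_of_le_pi_div_two (by linarith) (by linarith) hβt
  have hD : 0 ≤ Real.sin t * Real.cos (β * t) - Real.cos t * Real.sin (β * t) := by
    rw [← Real.sin_sub]
    apply Real.sin_nonneg_of_nonneg_of_le_pi <;> linarith
  have hsc := Real.sin_sq_add_cos_sq t
  set c := Real.cos t
  set s := Real.sin t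
  set C := Real.cos (β * t)
  set S := Real.sin (β * t)
  have h1 : 0 ≤ C * (1 + c ^ 2) - c * s * S := by
    have : s * S ≤ s * s := mul_le_mul_of_nonneg_left hS hs0
    have h2 : c * (s * S) ≤ c * (s * s) := mul_le_mul_of_nonneg_left this hc0.le
    have h3 : c * (1 + c ^ 2) ≤ C * (1 + c ^ 2) :=
      mul_le_mul_of_nonneg_right hC (by positivity)
    have h4 : 0 ≤ c * (1 + c ^ 2) - c * (s * s) := by
      have : s * s = 1 - c ^ 2 := by nlinarith
      rw [this]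
      have : c * (1 + c ^ 2) - c * (1 - c ^ 2) = 2 * c ^ 3 := by ring
      rw [this]
      positivity
    nlinarith
  have key : C * (β * (ρ ^ 2 + 1) - 2 * β * ρ * c + 2 * ρ * c + β * c ^ 2 * (ρ ^ 2 - 1)) -
      β * c * (s * S) * (ρ ^ 2 + 1) =
      ρ ^ 2 * β * (C * (1 + c ^ 2) - c * s * S) + 2 * (1 - β) * ρ * c * C +
        β * (s * (s * C - c * S)) + β * C * (1 - c ^ 2 - s * s) := by ring
  rw [key]
  have h5 : 1 - c ^ 2 - s * s = 0 := by nlinarith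
  rw [h5]
  have h6 : 0 ≤ ρ ^ 2 * β * (C * (1 + c ^ 2) - c * s * S) := by positivity
  have h7 : 0 ≤ 2 * (1 - β) * ρ * c * C := by
    have : 0 < 1 - β := by linarith
    have : 0 < C := lt_of_lt_of_le hc0 hC
    positivity
  have h8 : 0 ≤ β * (s * (s * C - c * S)) := by positivity
  linarith

theorem one_sub_ne {z : ℂ} (hz : ‖z‖ < 1) : (1 - z) ≠ 0 := by
  intro h
  have : z = 1 := (sub_eq_zero.1 h).symm
  rw [this] at hz
  simp at hz

theorem one_add_ne {z : ℂ} (hz : ‖z‖ < 1) : (1 + z) ≠ 0 := by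
  intro h
  have : z = -1 := by linear_combination h
  rw [this] at hz
  simp at hz

/-- `Re ((1+z)/(1-z)) = (1 - |z|²) / |1 - z|²`. -/
theorem re_w {z : ℂ} : ((1 + z) / (1 - z)).re = (1 - ‖z‖ ^ 2) / ‖1 - z‖ ^ 2 := by
  rw [Complex.div_re, ← Complex.normSq_eq_norm_sq (1 - z), ← Complex.normSq_eq_norm_sq z]
  rw [← add_div]
  congr 1
  simp [Complex.normSq_apply]
  ring

theorem re_w_pos {z : ℂ} (hz : ‖z‖ < 1) : 0 < ((1 + z) / (1 - z)).re := by
  rw [re_w]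
  have h1 : 0 < ‖1 - z‖ := norm_pos_iff.2 (one_sub_ne hz)
  have h2 : 0 < 1 - ‖z‖ ^ 2 := by nlinarith [norm_nonneg z]
  positivity

/-- The derivative of `p_β`. -/
theorem deriv_pfun (β : ℝ) {z : ℂ} (hz : ‖z‖ < 1) :
    deriv (pfun β) z = 2 * β / (1 - z ^ 2) * pfun β z := by
  have h1 := one_sub_ne hz
  have h2 := one_add_ne hz
  have hw : (1 + z) / (1 - z) ∈ Complex.slitPlane := Or.inl (re_w_pos hz)
  have hw0 : (1 + z) / (1 - z) ≠ 0 := Complex.slitPlane_ne_zero hw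
  have hd : HasDerivAt (fun z : ℂ => (1 + z) / (1 - z)) (2 / (1 - z) ^ 2) z := by
    have := ((hasDerivAt_id z).const_add 1).div ((hasDerivAt_id z).const_sub 1) h1
    refine this.congr_deriv ?_
    simp only [id]
    congr 1
    ring
  have h3 := (hd.cpow_const (c := (β : ℂ)) hw)
  have h4 : deriv (pfun β) z = (β : ℂ) * ((1 + z) / (1 - z)) ^ ((β : ℂ) - 1) *
      (2 / (1 - z) ^ 2) := h3.deriv
  rw [h4, Complex.cpow_sub _ _ hw0, Complex.cpow_one, pfun]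
  have h5 : (1 - z ^ 2) ≠ 0 := by
    have : (1 - z ^ 2) = (1 - z) * (1 + z) := by ring
    rw [this]; exact mul_ne_zero h1 h2
  field_simp
  ring

/-- The bracket. -/
noncomputable def brk (α β : ℝ) (z : ℂ) : ℂ :=
  ((α * ‖z‖ ^ 2 + (1 - α) * (1 - ‖z‖ ^ 2) : ℝ) : ℂ) +
    (((1 - α) * (1 - ‖z‖ ^ 2) : ℝ) : ℂ) * (z * (2 * β / (1 - z ^ 2)))

theorem Pfun_eq (α β : ℝ) {z : ℂ} (hz : ‖z‖ < 1) : Pfun α β z = brk α β z * pfun β z := by
  rw [Pfun, brk, deriv_pfun β hz]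
  ring

/-- The bracket in terms of `w`. -/
theorem brk_eq (α β : ℝ) {z : ℂ} (hz : ‖z‖ < 1) {w : ℂ} (hw : w = (1 + z) / (1 - z)) :
    ((‖w + 1‖ ^ 2 : ℝ) : ℂ) * brk α β z =
      ((α * ‖w - 1‖ ^ 2 + 4 * (1 - α) * w.re : ℝ) : ℂ) +
        ((2 * β * (1 - α) * w.re : ℝ) : ℂ) * (w - w⁻¹) := by
  have h1 := one_sub_ne hz
  have h2 := one_add_ne hz
  have h1n : ‖1 - z‖ ≠ 0 := norm_ne_zero_iff.2 h1
  have e1 : w + 1 = 2 / (1 - z) := by rw [hw]; field_simp; ring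
  have e2 : w - 1 = 2 * z / (1 - z) := by rw [hw]; field_simp; ring
  have e3 : ‖w + 1‖ ^ 2 = 4 / ‖1 - z‖ ^ 2 := by
    rw [e1, norm_div, div_pow]; norm_num
  have e4 : ‖w - 1‖ ^ 2 = 4 * ‖z‖ ^ 2 / ‖1 - z‖ ^ 2 := by
    rw [e2, norm_div, norm_mul, div_pow, mul_pow]; norm_num
  have e5 : w.re = (1 - ‖z‖ ^ 2) / ‖1 - z‖ ^ 2 := by rw [hw]; exact re_w
  have e6 : w - w⁻¹ = 4 * z / (1 - z ^ 2) := by
    have h5 : (1 - z ^ 2) = (1 - z) * (1 + z) := by ring
    rw [hw, h5]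
    field_simp
    ring
  rw [e6, e5, e4, e3, brk]
  have h6 : (1 - z ^ 2) ≠ 0 := by
    have : (1 - z ^ 2) = (1 - z) * (1 + z) := by ring
    rw [this]; exact mul_ne_zero h1 h2
  have h7 : ((‖1 - z‖ : ℝ) : ℂ) ≠ 0 := by exact_mod_cast h1n
  push_cast
  field_simp

/-- **`Re P_{α,β}(z) ≥ 0` for all `z` in the unit disk** if `0 < α < 2/3`, `β > 0` and
`α - 2 (1 - α) β ≥ 0`. -/
theorem result : ∀ α β : ℝ, 0 < α → α < 2 / 3 → 0 < β → 0 ≤ α - 2 * (1 - α) * β →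
    ∀ z : ℂ, ‖z‖ < 1 → 0 ≤ (Pfun α β z).re := by
  intro α β hα0 hα1 hβ0 hαβ z hz
  have hB : 0 < 1 - α := by linarith
  have hβ1 : β < 1 := by
    by_contra h
    push Not at h
    nlinarith
  set w := (1 + z) / (1 - z) with hw
  have hre : 0 < w.re := re_w_pos hz
  have hw0 : w ≠ 0 := by
    intro h
    rw [h] at hre
    simp at hre
  set ρ := ‖w‖ with hρ
  have hρ0 : 0 < ρ := norm_pos_iff.2 hw0
  set φ := Complex.arg w with hφ
  have hφ1 : |φ| < Real.pi / 2 := Complex.abs_arg_lt_pi_div_two_iff.2 (Or.inl hre)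
  have hwre : w.re = ρ * Real.cos φ := (Complex.norm_mul_cos_arg w).symm
  have hwim : w.im = ρ * Real.sin φ := (Complex.norm_mul_sin_arg w).symm
  have hn1 : 0 < ‖w + 1‖ ^ 2 := by
    have : w + 1 ≠ 0 := by
      intro h
      have h' := congrArg Complex.re h
      simp at h'
      linarith
    have := norm_pos_iff.2 this
    positivity
  rw [Pfun_eq α β hz]
  have hgoal : 0 ≤ ‖w + 1‖ ^ 2 * (brk α β z * pfun β z).re := by
    have e1 : ‖w + 1‖ ^ 2 * (brk α β z * pfun β z).re =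
        ((((‖w + 1‖ ^ 2 : ℝ) : ℂ) * brk α β z) * pfun β z).re := by
      rw [mul_assoc, Complex.re_ofReal_mul]
    rw [e1, brk_eq α β hz hw]
    have hp : pfun β z = w ^ (β : ℂ) := rfl
    rw [hp, Complex.mul_re, Complex.cpow_ofReal_re, Complex.cpow_ofReal_im]
    have hsq : ρ ^ 2 = w.re ^ 2 + w.im ^ 2 := by
      rw [hρ, ← Complex.normSq_eq_norm_sq, Complex.normSq_apply]; ring
    have hre1 : ((((α * ‖w - 1‖ ^ 2 + 4 * (1 - α) * w.re : ℝ) : ℂ) +
        ((2 * β * (1 - α) * w.re : ℝ) : ℂ) * (w - w⁻¹)) : ℂ).re =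
        α * (ρ ^ 2 + 1 - 2 * ρ * Real.cos φ) + 4 * (1 - α) * (ρ * Real.cos φ) +
          2 * β * (1 - α) * Real.cos φ ^ 2 * (ρ ^ 2 - 1) := by
      rw [Complex.add_re, Complex.ofReal_re, Complex.re_ofReal_mul, Complex.sub_re,
        Complex.inv_re]
      have e2 : ‖w - 1‖ ^ 2 = ρ ^ 2 + 1 - 2 * ρ * Real.cos φ := by
        rw [← Complex.normSq_eq_norm_sq, Complex.normSq_apply, hsq]
        simp only [Complex.sub_re, Complex.one_re, Complex.sub_im, Complex.one_im]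
        have : 2 * ρ * Real.cos φ = 2 * w.re := by rw [hwre]; ring
        rw [this]
        ring
      rw [e2, Complex.normSq_eq_norm_sq, ← hρ, hwre]
      field_simp
    have him1 : ((((α * ‖w - 1‖ ^ 2 + 4 * (1 - α) * w.re : ℝ) : ℂ) +
        ((2 * β * (1 - α) * w.re : ℝ) : ℂ) * (w - w⁻¹)) : ℂ).im =
          2 * β * (1 - α) * Real.cos φ * Real.sin φ * (ρ ^ 2 + 1) := by
      rw [Complex.add_im, Complex.ofReal_im, Complex.im_ofReal_mul, Complex.sub_im,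
        Complex.inv_im, Complex.normSq_eq_norm_sq, ← hρ, hwre, hwim]
      field_simp
      ring
    rw [hre1, him1]
    -- pass to `t = |φ|`
    set t := |φ| with ht
    have hcos : Real.cos φ = Real.cos t := (Real.cos_abs φ).symm
    have hcosβ : Real.cos (φ * β) = Real.cos (β * t) := by
      rw [ht, ← Real.cos_abs (φ * β), abs_mul, abs_of_pos hβ0, mul_comm]
    have hsinβ : Real.sin φ * Real.sin (φ * β) = Real.sin t * Real.sin (β * t) := by
      rcases le_total 0 φ with h | h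
      · rw [ht, abs_of_nonneg h, mul_comm β]
      · rw [ht, abs_of_nonpos h, Real.sin_neg, mul_neg, Real.sin_neg, mul_comm β]
        ring
    have helem := elem hβ0 hβ1 (abs_nonneg φ) hφ1 hρ0
    rw [← ht] at helem
    have hρβ : 0 < ρ ^ β := Real.rpow_pos_of_pos hρ0 β
    have hcosβ0 : 0 ≤ Real.cos (β * t) := by
      have hpi := Real.pi_pos
      apply Real.cos_nonneg_of_neg_pi_div_two_le_of_le
      · have : 0 ≤ β * t := by positivity
        linarith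
      · have h0 : 0 ≤ t := abs_nonneg φ
        nlinarith
    have hquad : 0 ≤ ρ ^ 2 + 1 - 2 * ρ * Real.cos t := by
      nlinarith [Real.cos_le_one t, sq_nonneg (ρ - 1)]
    have efin : (α * (ρ ^ 2 + 1 - 2 * ρ * Real.cos φ) + 4 * (1 - α) * (ρ * Real.cos φ) +
          2 * β * (1 - α) * Real.cos φ ^ 2 * (ρ ^ 2 - 1)) * (ρ ^ β * Real.cos (φ * β)) -
        2 * β * (1 - α) * Real.cos φ * Real.sin φ * (ρ ^ 2 + 1) * (ρ ^ β * Real.sin (φ * β)) =
        ρ ^ β * ((α - 2 * (1 - α) * β) * (ρ ^ 2 + 1 - 2 * ρ * Real.cos t) * Real.cos (β * t) +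
          2 * (1 - α) * (Real.cos (β * t) * (β * (ρ ^ 2 + 1) - 2 * β * ρ * Real.cos t +
            2 * ρ * Real.cos t + β * Real.cos t ^ 2 * (ρ ^ 2 - 1)) -
            β * Real.cos t * (Real.sin t * Real.sin (β * t)) * (ρ ^ 2 + 1))) := by
      have e3 : 2 * β * (1 - α) * Real.cos φ * Real.sin φ * (ρ ^ 2 + 1) *
          (ρ ^ β * Real.sin (φ * β)) = 2 * β * (1 - α) * Real.cos φ * (ρ ^ 2 + 1) * ρ ^ β *
          (Real.sin φ * Real.sin (φ * β)) := by ring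
      rw [e3, hsinβ, hcosβ, hcos]
      ring
    rw [efin]
    apply mul_nonneg hρβ.le
    apply add_nonneg
    · exact mul_nonneg (mul_nonneg hαβ hquad) hcosβ0
    · exact mul_nonneg (by positivity) helem
  by_contra hneg
  push Not at hneg
  have := mul_neg_of_pos_of_neg hn1 hneg
  linarith

end Pool.Agent.Results.MP_54ed65_an.NonnegativeRealPart
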